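import Pool.Agent.KACR.Stmts

/-! Row CRP of the block RECON (KACR): passing through a critical point. -/

namespace Pool.Agent.KACR.H51

open Set Filter

lemma sign_near {f : ℝ → ℝ} {x σ : ℝ} (h : HasDerivAt f σ x) (h0 : f x = 0) (hσ : σ ≠ 0) :
    ∃ η : ℝ, 0 < η ∧ ∀ s, s ≠ x → |s - x| < η → 0 < f s * σ * (s - x) := by
  have h1 := hasDerivAt_iff_tendsto_slope.1 h
  have h2 : ∀ᶠ s in nhdsWithin x {x}ᶜ, 0 < slope f x s * σ := by
    have h3 := h1.mul_const σ
    have hpos : 0 < σ * σ := mul_self_pos.2 hσ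
    exact h3.eventually (lt_mem_nhds hpos)
  rw [eventually_nhdsWithin_iff, Metric.eventually_nhds_iff] at h2
  obtain ⟨η, hη, h⟩ := h2
  refine ⟨η, hη, fun s hs hs2 => ?_⟩
  have h3 := h (by rwa [Real.dist_eq]) (show s ∈ ({x}ᶜ : Set ℝ) from hs)
  rw [slope_def_field, h0, sub_zero] at h3
  have hne : s - x ≠ 0 := sub_ne_zero.2 hs
  have h4 : f s * σ * (s - x) = (f s / (s - x) * σ) * (s - x) ^ 2 := by
    field_simp
  rw [h4]
  exact mul_pos h3 (by positivity)

lemma gen_d2 {L : ℝ} {k : ℝ → ℝ} (h : Gen L k) (s : ℝ) :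
    HasDerivAt (deriv k) (deriv (deriv k) s) s := by
  have h1 : ContDiff ℝ ((1 : ℕ∞) : WithTop ℕ∞) (deriv k) := by
    have := h.smooth
    have h2 : ContDiff ℝ (((⊤ : ℕ∞) : WithTop ℕ∞) + 1) k := by simpa using this
    exact ((contDiff_succ_iff_deriv.1 h2).2.2).of_le (by exact_mod_cast le_top)
  exact ((h1.differentiable (by norm_num)) s).hasDerivAt

lemma eqmod_eq {L x y : ℝ} (hL : 0 < L) (h : EqMod L x y) (hd : |y - x| < L) : y = x := by
  obtain ⟨n, hn⟩ := h
  have h1 : y - x = n * L := by rw [hn]; ring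
  rw [h1, abs_mul, abs_of_pos hL] at hd
  have h2 : |(n : ℝ)| < 1 := by
    by_contra hc
    push Not at hc
    nlinarith
  have h3 : n = 0 := by
    have : |n| < 1 := by exact_mod_cast h2
    exact Int.abs_lt_one_iff.1 this
  rw [h3] at hn
  simpa using hn

/-- two partners of the same point are equal modulo `L` -/
lemma partner_eqmod {L : ℝ} {k k' : ℝ → ℝ} (h' : Gen L k') {s t t' : ℝ}
    (h1 : SameJet k k' s t) (h2 : SameJet k k' s t') : EqMod L t t' :=
  h'.inj t t' (by rw [h1.1, h2.1]) (by rw [h1.2.1, h2.2.1]) (by rw [h1.2.2, h2.2.2])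

theorem crp (hNea : NeaStmt) (hRgp : RgpStmt) : CrpStmt := by
  intro L k k' hk hk' hall s₁ t₁ hst ε hε hs₁ δ hδ hleft
  have hL := hk.pos
  have ht₁ : deriv k' t₁ = 0 := by
    have := hst.2.1
    rw [hs₁] at this
    nlinarith [sq_nonneg (deriv k' t₁), pow_eq_zero_iff (two_ne_zero) |>.1 (by simpa using this :
      deriv k' t₁ ^ 2 = 0)]
  set σ := deriv (deriv k) s₁ with hσ
  have hσ0 : σ ≠ 0 := hk.nondeg s₁ hs₁
  have hσ' : deriv (deriv k') t₁ = σ := hst.2.2
  obtain ⟨η₁, hη₁, hsg⟩ := sign_near (gen_d2 hk s₁) hs₁ hσ0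
  have hd2' : HasDerivAt (deriv k') σ t₁ := by rw [← hσ']; exact gen_d2 hk' t₁
  obtain ⟨η₂, hη₂, hsg'⟩ := sign_near hd2' ht₁ hσ0
  set η : ℝ := min (min η₂ δ) (L / 4) with hη
  have hηpos : 0 < η := by
    rw [hη]; exact lt_min (lt_min hη₂ hδ) (by linarith)
  have hη_le2 : η ≤ η₂ := (min_le_left _ _).trans (min_le_left _ _)
  have hη_leδ : η ≤ δ := (min_le_left _ _).trans (min_le_right _ _)
  have hη_leL : η ≤ L / 4 := min_le_right _ _
  obtain ⟨δ₁, hδ₁, hnea⟩ := hNea L k k' hk hk' hall s₁ t₁ hst η hηpos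
  set δ' : ℝ := min (min δ₁ η₁) (L / 4) with hδ'
  have hδ'pos : 0 < δ' := by
    rw [hδ']; exact lt_min (lt_min hδ₁ hη₁) (by linarith)
  have hδ'1 : δ' ≤ δ₁ := (min_le_left _ _).trans (min_le_left _ _)
  have hδ'2 : δ' ≤ η₁ := (min_le_left _ _).trans (min_le_right _ _)
  have hδ'L : δ' ≤ L / 4 := min_le_right _ _
  have hex : ∀ s : ℝ, ∃ t, |s - s₁| < δ₁ → (|t - t₁| < η ∧ SameJet k k' s t) := by
    intro s
    by_cases hs : |s - s₁| < δ₁
    · obtain ⟨t, h1, h2⟩ := hnea s hs
      exact ⟨t, fun _ => ⟨h1, h2⟩⟩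
    · exact ⟨0, fun h => absurd h hs⟩
  choose t ht using hex
  have habs : ∀ s, s₁ < s → s < s₁ + δ' → |s - s₁| < δ' := by
    intro s h1 h2
    rw [abs_of_pos (by linarith)]; linarith
  have hεabs : |ε| = 1 := by
    have : |ε| ^ 2 = 1 := by rw [sq_abs]; exact hε
    nlinarith [abs_nonneg ε]
  -- uniqueness of the near partner
  have huniq : ∀ s, s₁ < s → s < s₁ + δ' → ∀ x, |x - t₁| < η → SameJet k k' s x → x = t s := by
    intro s h1 h2 x hx hj
    obtain ⟨h3, h4⟩ := ht s ((habs s h1 h2).trans_le hδ'1)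
    apply eqmod_eq hL (partner_eqmod hk' h4 hj)
    have : x - t s = (x - t₁) - (t s - t₁) := by ring
    rw [this]
    calc |(x - t₁) - (t s - t₁)| ≤ |x - t₁| + |t s - t₁| := abs_sub _ _
      _ < η + η := add_lt_add hx h3
      _ < L := by linarith
  -- the sign
  have hsign : ∀ s, s₁ < s → s < s₁ + δ' → deriv k' (t s) = ε * deriv k s ∧ deriv k s ≠ 0 := by
    intro s h1 h2
    obtain ⟨h3, h4⟩ := ht s ((habs s h1 h2).trans_le hδ'1)
    have h5 : 0 < deriv k s * σ * (s - s₁) :=
      hsg s (ne_of_gt h1) ((habs s h1 h2).trans_le hδ'2)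
    have h6 : deriv k s ≠ 0 := by
      intro h0; rw [h0] at h5; simp at h5
    have h7 : 0 < deriv k s * σ := by
      by_contra hc
      push Not at hc
      nlinarith
    have h8 : t s ≠ t₁ := by
      intro h0
      have := h4.2.1
      rw [h0, ht₁] at this
      exact h6 (pow_eq_zero_iff (two_ne_zero) |>.1 (by rw [← this]; ring))
    have h9 : 0 < deriv k' (t s) * σ * (t s - t₁) := hsg' (t s) h8 (h3.trans_le hη_le2)
    have h10 : 0 < ε * (t s - t₁) := by
      rcases lt_trichotomy (ε * (t s - t₁)) 0 with hlt | heq | hgt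
      · exfalso
        set r := s₁ + ε * (t s - t₁) with hr
        have hra : |ε * (t s - t₁)| < η := by rw [abs_mul, hεabs, one_mul]; exact h3
        have hrb : -η < ε * (t s - t₁) := (abs_lt.1 hra).1
        have hj := hleft r (by rw [hr]; linarith) (by rw [hr]; linarith)
        have hcalc : t₁ + ε * (r - s₁) = t s := by
          rw [hr]
          have : t₁ + ε * (s₁ + ε * (t s - t₁) - s₁) = t₁ + ε ^ 2 * (t s - t₁) := by ring
          rw [this, hε]; ring
        rw [hcalc] at hj
        have he : EqMod L r s := hk.inj r s (by rw [← hj.1, ← h4.1])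
          (by rw [← hj.2.1, ← h4.2.1]) (by rw [← hj.2.2, ← h4.2.2])
        have hd : |s - r| < L := by
          rw [abs_of_pos (by rw [hr]; linarith)]
          rw [hr]; linarith
        have := eqmod_eq hL he hd
        rw [this, hr] at h1
        linarith
      · exfalso
        rcases mul_eq_zero.1 heq with h | h
        · rw [h] at hε; norm_num at hε
        · exact h8 (by linarith)
      · exact hgt
    refine ⟨?_, h6⟩
    have h11 : (deriv k' (t s) - ε * deriv k s) * (deriv k' (t s) + ε * deriv k s) = 0 := by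
      have := h4.2.1
      have h12 : (deriv k' (t s) - ε * deriv k s) * (deriv k' (t s) + ε * deriv k s) =
        deriv k' (t s) ^ 2 - ε ^ 2 * deriv k s ^ 2 := by ring
      rw [h12, hε, this]; ring
    rcases mul_eq_zero.1 h11 with h | h
    · linarith
    · exfalso
      have h13 : deriv k' (t s) = -(ε * deriv k s) := by linarith
      rw [h13] at h9
      have h14 : -(ε * deriv k s) * σ * (t s - t₁) = -((deriv k s * σ) * (ε * (t s - t₁))) := by
        ring
      rw [h14] at h9
      have := mul_pos h7 h10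
      linarith
  -- local constancy
  have hloc : ∀ s, s₁ < s → s < s₁ + δ' → ∀ᶠ r in nhds s, t r - ε * r = t s - ε * s := by
    intro s h1 h2
    obtain ⟨h3, h4⟩ := ht s ((habs s h1 h2).trans_le hδ'1)
    obtain ⟨h5, h6⟩ := hsign s h1 h2
    obtain ⟨δs, hδs, hR⟩ := hRgp L k k' hk hk' hall s (t s) h4 ε hε h5 h6
    have e1 : ∀ᶠ r in nhds s, s₁ < r := eventually_gt_nhds h1
    have e2 : ∀ᶠ r in nhds s, r < s₁ + δ' := eventually_lt_nhds h2
    have e3 : ∀ᶠ r in nhds s, |r - s| < δs := by
      have := Metric.ball_mem_nhds s hδs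
      filter_upwards [this] with r hr
      rwa [Metric.mem_ball, Real.dist_eq] at hr
    have e4 : ∀ᶠ r in nhds s, |r - s| < η - |t s - t₁| := by
      have := Metric.ball_mem_nhds s (show 0 < η - |t s - t₁| by linarith)
      filter_upwards [this] with r hr
      rwa [Metric.mem_ball, Real.dist_eq] at hr
    filter_upwards [e1, e2, e3, e4] with r g1 g2 g3 g4
    have hj := hR r g3
    have hx : |t s + ε * (r - s) - t₁| < η := by
      have : t s + ε * (r - s) - t₁ = (t s - t₁) + ε * (r - s) := by ring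
      rw [this]
      calc |(t s - t₁) + ε * (r - s)| ≤ |t s - t₁| + |ε * (r - s)| := abs_add_le _ _
        _ = |t s - t₁| + |r - s| := by rw [abs_mul, hεabs, one_mul]
        _ < η := by linarith
    have := huniq r g1 g2 _ hx hj
    rw [← this]; ring
  -- constancy
  have hcon : ∀ a b, s₁ < a → a < b → b < s₁ + δ' → t b - ε * b = t a - ε * a := by
    intro a b ha hab hb
    have hder : ∀ x ∈ Icc a b, HasDerivAt (fun r => t r - ε * r) 0 x := by
      intro x hx
      have := hloc x (ha.trans_le hx.1) (hx.2.trans_lt hb)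
      exact (hasDerivAt_const x (t x - ε * x)).congr_of_eventuallyEq this
    have hc : ContinuousOn (fun r => t r - ε * r) (Icc a b) :=
      fun x hx => (hder x hx).continuousAt.continuousWithinAt
    obtain ⟨c, -, hc2⟩ := exists_hasDerivAt_eq_slope (fun r => t r - ε * r) (fun _ => 0) hab hc
      (fun x hx => hder x ⟨hx.1.le, hx.2.le⟩)
    have hne : b - a ≠ 0 := by linarith
    have h0 : (t b - ε * b) - (t a - ε * a) = 0 := by
      have := hc2.symm
      rw [div_eq_zero_iff] at this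
      rcases this with h | h
      · exact h
      · exact absurd h hne
    linarith
  set c := t (s₁ + δ' / 2) - ε * (s₁ + δ' / 2) with hcdef
  have hcc : ∀ s, s₁ < s → s < s₁ + δ' → t s - ε * s = c := by
    intro s h1 h2
    rcases lt_trichotomy s (s₁ + δ' / 2) with h | h | h
    · rw [hcdef]
      exact (hcon s (s₁ + δ' / 2) h1 h (by linarith)).symm
    · rw [h]
    · rw [hcdef]
      exact hcon (s₁ + δ' / 2) s (by linarith) h h2
  have hd0 : c + ε * s₁ - t₁ = 0 := by
    by_contra hd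
    set d := c + ε * s₁ - t₁ with hdd
    have hdpos : 0 < |d| := abs_pos.2 hd
    obtain ⟨δ₂, hδ₂, hnea2⟩ := hNea L k k' hk hk' hall s₁ t₁ hst (min η (|d| / 2))
      (lt_min hηpos (by linarith))
    set x := min (min δ₂ δ') (|d| / 2) / 2 with hx
    have hmpos : 0 < min (min δ₂ δ') (|d| / 2) := lt_min (lt_min hδ₂ hδ'pos) (by linarith)
    have hxpos : 0 < x := by rw [hx]; linarith
    have hx1 : x < δ₂ := by
      have : min (min δ₂ δ') (|d| / 2) ≤ δ₂ := (min_le_left _ _).trans (min_le_left _ _)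
      rw [hx]; linarith
    have hx2 : x < δ' := by
      have : min (min δ₂ δ') (|d| / 2) ≤ δ' := (min_le_left _ _).trans (min_le_right _ _)
      rw [hx]; linarith
    have hx3 : x ≤ |d| / 4 := by
      have : min (min δ₂ δ') (|d| / 2) ≤ |d| / 2 := min_le_right _ _
      rw [hx]; linarith
    obtain ⟨y, hy1, hy2⟩ := hnea2 (s₁ + x) (by
      rw [add_sub_cancel_left, abs_of_pos hxpos]; exact hx1)
    have hyη : |y - t₁| < η := hy1.trans_le (min_le_left _ _)
    have hyt := huniq (s₁ + x) (by linarith) (by linarith) y hyη hy2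
    have h1 := hcc (s₁ + x) (by linarith) (by linarith)
    have h2 : y - t₁ = d + ε * x := by
      rw [hyt, hdd, ← h1]; ring
    have h3 : |y - t₁| < |d| / 2 := hy1.trans_le (min_le_right _ _)
    have h4 : |d| ≤ |y - t₁| + x := by
      have : d = (y - t₁) - ε * x := by rw [h2]; ring
      calc |d| = |(y - t₁) - ε * x| := by rw [← this]
        _ ≤ |y - t₁| + |ε * x| := abs_sub _ _
        _ = |y - t₁| + x := by rw [abs_mul, hεabs, one_mul, abs_of_pos hxpos]
    linarith
  refine ⟨δ', hδ'pos, fun s hs1 hs2 => ?_⟩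
  rcases hs1.eq_or_lt with h | h
  · rw [← h]; simpa using hst
  · obtain ⟨h3, h4⟩ := ht s ((habs s h hs2).trans_le hδ'1)
    have h5 := hcc s h hs2
    have h6 : t s = t₁ + ε * (s - s₁) := by
      have : c = t₁ - ε * s₁ := by linarith
      rw [this] at h5
      linarith
    rw [← h6]; exact h4

end Pool.Agent.KACR.H51
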